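import Pool.Agent.Helper29.FT.Uniq

/-!
# Flag-transitive semipartial geometries on the `k`-subsets (MP_cc38df_co)

For `n ≥ 5`, `1 ≤ k`, `2k ≤ n` and `A_n ≤ G ≤ S_n` acting on the set of all `k`-subsets of an
`n`-set, we determine all semipartial geometries that are not linear spaces and have a
flag-transitive automorphism group `G` acting in this way on the points.
-/

open Finset Pointwise

namespace Pool.Agent.Results.MP_cc38df_co.AlternatingOnSubsets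

open Pool.Agent.Helper29.FT

/-- Complete classification of the proper semipartial geometries with point set all `k`-subsets
of an `n`-set and a flag-transitive group between the alternating and the symmetric group. -/
theorem result {n k α s t μ : ℕ} (hn : 5 ≤ n) (hk : 1 ≤ k) (hkn : 2 * k ≤ n)
    (G : Subgroup (Equiv.Perm (Fin n))) (hG : alternatingGroup (Fin n) ≤ G)
    (B : Finset (Finset (Finset (Fin n)))) :
    (IsSPG (Pts n k) B α s t μ ∧ FlagTransitive G B ∧ NonLinear (Pts n k) B) ↔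
      (k = 2 ∧ B = stars n ∧ α = 2 ∧ s = n - 2 ∧ t = 1 ∧ μ = 4) ∨
      (k = 2 ∧ B = triangles n ∧ α = 2 ∧ s = 2 ∧ t = n - 3 ∧ μ = 4) ∨
      (n = 5 ∧ k = 2 ∧ B = matchings n 2 ∧ α = 1 ∧ s = 1 ∧ t = 2 ∧ μ = 1) ∨
      (n = 6 ∧ k = 2 ∧ B = matchings n 3 ∧ α = 1 ∧ s = 2 ∧ t = 2 ∧ μ = 3) ∨
      (n = 7 ∧ k = 3 ∧ G = alternatingGroup (Fin n) ∧
        (∃ L, IsFano L ∧ ∀ m, m ∈ B ↔ ∃ g ∈ alternatingGroup (Fin n), m = g • L) ∧
        α = 3 ∧ s = 6 ∧ t = 2 ∧ μ = 9) := by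
  constructor
  · rintro ⟨hS, hF, hNL⟩
    rcases necessity hn hk hkn hG hS hF hNL with ⟨rfl, rfl⟩ | ⟨rfl, rfl⟩ | ⟨rfl, rfl, rfl⟩ |
      ⟨rfl, rfl, rfl⟩ | ⟨rfl, rfl, hG', L, hL, hB⟩
    · exact Or.inl ⟨rfl, rfl, params_unique hS (stars_spg hn) hNL⟩
    · exact Or.inr (Or.inl ⟨rfl, rfl, params_unique hS (triangles_spg hn) hNL⟩)
    · exact Or.inr (Or.inr (Or.inl ⟨rfl, rfl, rfl, params_unique hS (petersen_spg rfl) hNL⟩))
    · exact Or.inr (Or.inr (Or.inr (Or.inl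
        ⟨rfl, rfl, rfl, params_unique hS (w2_spg rfl) hNL⟩)))
    · exact Or.inr (Or.inr (Or.inr (Or.inr ⟨rfl, rfl, hG', ⟨L, hL, hB⟩,
        params_unique hS (fano_spg hB hL) hNL⟩)))
  · rintro (⟨rfl, rfl, rfl, rfl, rfl, rfl⟩ | ⟨rfl, rfl, rfl, rfl, rfl, rfl⟩ |
      ⟨rfl, rfl, rfl, rfl, rfl, rfl, rfl⟩ | ⟨rfl, rfl, rfl, rfl, rfl, rfl, rfl⟩ |
      ⟨rfl, rfl, rfl, ⟨L, hL, hB⟩, rfl, rfl, rfl, rfl⟩)
    · exact ⟨stars_spg hn, stars_flag hn hG, stars_nonlinear hn⟩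
    · exact ⟨triangles_spg hn, triangles_flag hn hG, triangles_nonlinear hn⟩
    · exact ⟨petersen_spg rfl, petersen_flag rfl hG,
        nonlinear_of (j := 0) (j' := 1) (by norm_num) (by norm_num) (by norm_num)
          petersen_coll⟩
    · exact ⟨w2_spg rfl, w2_flag rfl hG,
        nonlinear_of (j := 0) (j' := 1) (by norm_num) (by norm_num) (by norm_num)
          (w2_coll rfl)⟩
    · exact ⟨fano_spg hB hL, fano_flag hB hL, fano_nonlinear hB hL⟩

end Pool.Agent.Results.MP_cc38df_co.AlternatingOnSubsets
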