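import Pool.Agent.Helper29.FT2.Conv

/-!
# Semipartial geometries on the `k`-dimensional subspaces (MP_cc38df_co)

Let `V` be a finite-dimensional vector space over a finite field `F`. We determine all
semipartial geometries that are not linear spaces, whose points are all `k`-dimensional
subspaces of `V` and whose line set is invariant under the special linear group of `V`.
Flag-transitivity is not assumed; it is a consequence.
-/

open Module Finset

namespace Pool.Agent.Results.MP_cc38df_co.LinearOnSubspaces

open Pool.Agent.Helper29.FT Pool.Agent.Helper29.FT2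

/-- Complete classification of the proper semipartial geometries with point set all
`k`-dimensional subspaces of a finite vector space that are invariant under the special linear
group. -/
theorem result {F V : Type*} [Field F] [Finite F] [AddCommGroup V] [Module F V]
    [FiniteDimensional F V] [DecidableEq (Submodule F V)] (k : ℕ)
    (B : Finset (Finset (Submodule F V))) :
    (((∃ α s t μ, IsSPG (Gr F V k) B α s t μ) ∧ NonLinear (Gr F V k) B ∧ SLInvariant B) ↔
      (2 ≤ k ∧ k + 2 ≤ finrank F V ∧ (k = 2 ∨ k + 2 = finrank F V) ∧
        (B = stars F V k ∨ B = flats F V k))) ∧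
    ((∃ α s t μ, IsSPG (Gr F V k) B α s t μ) → NonLinear (Gr F V k) B → SLInvariant B →
      SLFlagTransitive B) := by
  refine ⟨⟨?_, ?_⟩, ?_⟩
  · rintro ⟨⟨α, s, t, μ, hS⟩, hNL, hB⟩
    exact necessity hB hS hNL
  · rintro ⟨hk, hkn, hk', rfl | rfl⟩
    · exact ⟨stars_spg hk hkn hk', stars_nl hk hkn, stars_inv (by omega)⟩
    · exact ⟨flats_spg hk hkn hk', flats_nl hk hkn, flats_inv⟩
  · rintro ⟨α, s, t, μ, hS⟩ hNL hB
    obtain ⟨hk, -, -, rfl | rfl⟩ := necessity hB hS hNL
    · exact stars_flag (by omega)
    · exact flats_flag

end Pool.Agent.Results.MP_cc38df_co.LinearOnSubspaces
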