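import Pool.Agent.Helper20.SI.Main
import Pool.Agent.Helper20.SI.One
import Pool.Agent.Helper20.SI.HypsSPG

/-!
# Semipartial geometries on the totally isotropic `k`-dimensional subspaces (MP_cc38df_co)

Let `V` be a vector space of dimension at least six over a finite field `F` with a nondegenerate
alternating form `ω`. We determine all semipartial geometries that are not linear spaces, whose
points are all totally isotropic `k`-dimensional subspaces of `V` and whose line set is invariant
under the symplectic group of `ω`: they exist only for `k = 1`, and then the lines are the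
hyperbolic lines. Flag-transitivity is not assumed; it is a consequence.
-/

open Module Finset

namespace Pool.Agent.Results.MP_cc38df_co.SymplecticIsotropic

open Pool.Agent.Helper29.FT Pool.Agent.Helper29.FT2 Pool.Agent.Helper20.SI

/-- Complete classification of the proper semipartial geometries with point set all totally
isotropic `k`-dimensional subspaces of a symplectic space of dimension at least six that are
invariant under the symplectic group. -/
theorem result {F V : Type*} [Field F] [Finite F] [AddCommGroup V] [Module F V]
    [FiniteDimensional F V] [DecidableEq (Submodule F V)] (ω : LinearMap.BilinForm F V)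
    (hA : ω.IsAlt) (hN : ω.Nondegenerate) (hn : 6 ≤ finrank F V) (k : ℕ)
    (B : Finset (Finset (Submodule F V))) :
    (((∃ α s t μ, IsSPG (IsoGr ω k) B α s t μ) ∧ NonLinear (IsoGr ω k) B ∧ SpInvariant ω B) ↔
      (k = 1 ∧ B = hyps ω)) ∧ SpFlagTransitive ω (hyps ω) := by
  refine ⟨⟨?_, ?_⟩, hyps_flag hA hN⟩
  · rintro ⟨⟨α, s, t, μ, hS⟩, hNL, hB⟩
    rcases Nat.lt_or_ge k 2 with hk | hk
    · have hk1 : k = 1 := by
        by_contra h1
        have h0 : k = 0 := by omega
        subst h0
        obtain ⟨a, ha, b, hb, hab, -⟩ := hNL
        rw [mem_IsoGr] at ha hb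
        exact hab ((Submodule.finrank_eq_zero.mp ha.1).trans
          (Submodule.finrank_eq_zero.mp hb.1).symm)
      subst hk1
      exact ⟨rfl, necessity_one hA hN hB hS hNL hn⟩
    · exact (no_spg hA hN hB hS hNL hk hn).elim
  · rintro ⟨rfl, rfl⟩
    exact ⟨hyps_spg hA hN (by omega), hyps_nl hA hN (by omega), hyps_inv⟩

end Pool.Agent.Results.MP_cc38df_co.SymplecticIsotropic
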