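import Pool.Agent.Helper20.UI.Main
import Pool.Agent.Helper20.UI.One

/-!
# Semipartial geometries on the totally isotropic subspaces of a hermitian space (MP_cc38df_co)

Let `V` be a vector space of dimension at least six over a finite field `F` with a nondegenerate
hermitian form `h`. There is no semipartial geometry, except linear spaces, whose points are all
totally isotropic `k`-dimensional subspaces of `V` and whose line set is invariant under the
special unitary group of `h`. Flag-transitivity is not assumed.
-/

open Module Finset

namespace Pool.Agent.Results.MP_cc38df_co.UnitaryIsotropic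

open Pool.Agent.Helper29.FT Pool.Agent.Helper29.FT2 Pool.Agent.Helper20.UI

/-- No proper semipartial geometry with point set all totally isotropic `k`-dimensional subspaces
of a hermitian space of dimension at least six is invariant under the special unitary group. -/
theorem result {F V : Type*} [Field F] [Finite F] [AddCommGroup V] [Module F V]
    [FiniteDimensional F V] [DecidableEq (Submodule F V)] (σ : F →+* F)
    (h : V →ₛₗ[σ] V →ₗ[F] F) (hH : Herm h) (hn : 6 ≤ finrank F V) (k : ℕ)
    (B : Finset (Finset (Submodule F V))) (hB : SUInvariant h B)
    (hNL : NonLinear (IsoGr h k) B) : ¬ ∃ α s t μ, IsSPG (IsoGr h k) B α s t μ := by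
  rintro ⟨α, s, t, μ, hS⟩
  rcases Nat.lt_or_ge k 2 with hk | hk
  · have hk1 : k = 1 := by
      by_contra h1
      have h0 : k = 0 := by omega
      subst h0
      obtain ⟨a, ha, b, hb, hab, -⟩ := hNL
      rw [mem_IsoGr] at ha hb
      exact hab ((Submodule.finrank_eq_zero.mp ha.1).trans
        (Submodule.finrank_eq_zero.mp hb.1).symm)
    subst hk1
    exact no_spg_one hH hB hS hNL hn
  · exact no_spg hH hB hS hNL hk hn

end Pool.Agent.Results.MP_cc38df_co.UnitaryIsotropic
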